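import Mathlib

namespace Pool.Agent.Results.MP_843c3c_an.Distinct

/-- `X` has the angle `∠_ρ`. -/
def HasAngle (X : Type) [NormedAddCommGroup X] [NormedSpace ℝ X] (ρ : ℝ) : Prop :=
  ∀ x y : X, x ≠ 0 → y ≠ 0 →
    |(‖‖x‖⁻¹ • x + ‖y‖⁻¹ • y‖ ^ 2 - ‖‖x‖⁻¹ • x - ‖y‖⁻¹ • y‖ ^ 2) / 4| *
      ((‖‖x‖⁻¹ • x + ‖y‖⁻¹ • y‖ ^ 2 + ‖‖x‖⁻¹ • x - ‖y‖⁻¹ • y‖ ^ 2) / 4) ^ ρ ≤ 1

/-- A class of real normed spaces. -/
abbrev Cls := ∀ (X : Type) [NormedAddCommGroup X] [NormedSpace ℝ X], Prop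

/-- The class `NORM_ρ`. -/
def NORMr (ρ : ℝ) : Cls := fun X _ _ => HasAngle X ρ

/-- The class of all real normed spaces. -/
def NORM : Cls := fun _ _ _ => True

/-- Two classes differ if some space lies in exactly one of them. -/
def Differ (A B : Cls) : Prop :=
  ∃ (X : Type) (_ : NormedAddCommGroup X) (_ : NormedSpace ℝ X), ¬ (A X ↔ B X)

def Ang (N : ℝ × ℝ → ℝ) (ρ : ℝ) : Prop :=
  ∀ x y, N x = 1 → N y = 1 →
    |(N (x + y) ^ 2 - N (x - y) ^ 2) / 4| * ((N (x + y) ^ 2 + N (x - y) ^ 2) / 4) ^ ρ ≤ 1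

def Pl : Type := ℝ × ℝ

instance : AddCommGroup Pl := inferInstanceAs (AddCommGroup (ℝ × ℝ))
instance : Module ℝ Pl := inferInstanceAs (Module ℝ (ℝ × ℝ))

lemma realize (N : ℝ × ℝ → ℝ) (h0 : ∀ x, 0 ≤ N x) (h1 : ∀ (c : ℝ) x, N (c • x) = |c| * N x)
    (h2 : ∀ x y, N (x + y) ≤ N x + N y) (h3 : ∀ x, N x = 0 → x = 0) :
    ∃ (X : Type) (_ : NormedAddCommGroup X) (_ : NormedSpace ℝ X), ∀ ρ, HasAngle X ρ ↔ Ang N ρ := by
  letI : Norm Pl := ⟨N⟩
  have core : NormedSpace.Core ℝ Pl :=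
    { norm_nonneg := h0
      norm_smul := h1
      norm_triangle := h2
      norm_eq_zero_iff := fun x => ⟨h3 x, fun h => by
        have := h1 0 x
        rw [zero_smul, abs_zero, zero_mul] at this
        rw [h]; exact this⟩ }
  letI i1 : NormedAddCommGroup Pl := NormedAddCommGroup.ofCore core
  letI i2 : NormedSpace ℝ Pl := NormedSpace.ofCore core
  refine ⟨Pl, i1, i2, fun ρ => ⟨fun h x y hx hy => ?_, fun h x y hx hy => ?_⟩⟩
  · have hx' : ‖(show Pl from x)‖ = 1 := hx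
    have hy' : ‖(show Pl from y)‖ = 1 := hy
    have := h x y (by rw [← norm_ne_zero_iff, hx']; norm_num)
      (by rw [← norm_ne_zero_iff, hy']; norm_num)
    rw [hx', hy', inv_one, one_smul, one_smul] at this
    exact this
  · exact h _ _ (norm_smul_inv_norm (𝕜 := ℝ) hx) (norm_smul_inv_norm (𝕜 := ℝ) hy)

lemma abs_le_abs_sq_aux (a b : ℝ) (hb : 0 ≤ b) (h : a ^ 2 ≤ b ^ 2) : a ≤ b :=
  (abs_le_of_sq_le_sq' h hb).2

lemma titu (a b s t : ℝ) (hs : 0 < s) (ht : 0 < t) :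
    (a + b) ^ 2 / (s + t) ≤ a ^ 2 / s + b ^ 2 / t := by
  rw [div_add_div _ _ hs.ne' ht.ne', div_le_div_iff₀ (by positivity) (by positivity)]
  nlinarith [sq_nonneg (a * t - b * s)]

lemma small (a b c : ℝ) (ha : 0 < a) (hab : a < b) (hc : 0 < c) :
    ∃ e : ℝ, 0 < e ∧ e ≤ c ∧ a * e ^ 2 < 1 ∧ 1 < (1 - a * e ^ 2) * (1 + b * e ^ 2) := by
  have hb : 0 < b := ha.trans hab
  let e := min (min c 1) ((b - a) / (2 * a * b))
  have he : 0 < e := lt_min (lt_min hc one_pos) (by have := sub_pos.2 hab; positivity)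
  have h1 : e ≤ 1 := (min_le_left _ _).trans (min_le_right _ _)
  have h2 : e ≤ (b - a) / (2 * a * b) := min_le_right _ _
  rw [le_div_iff₀ (by positivity)] at h2
  have h3 : e ^ 2 ≤ e := by nlinarith
  have h4 : a * b * e ^ 2 ≤ a * b * e := by gcongr
  have h5 : 0 < e ^ 2 := by positivity
  refine ⟨e, he, (min_le_left _ _).trans (min_le_left _ _), ?_, ?_⟩
  · have : b * (a * e ^ 2) < b * 1 := by nlinarith
    exact lt_of_mul_lt_mul_left this hb.le
  · nlinarith [mul_pos h5 (show 0 < b - a - a * b * e ^ 2 by nlinarith)]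

noncomputable def Q (l t : ℝ) (v : ℝ × ℝ) : ℝ := v.1 ^ 2 / t + v.2 ^ 2 / (1 + l - t)

lemma lemA (γ : ℝ) (hγ : 1 < γ) : ∃ (X : Type) (_ : NormedAddCommGroup X) (_ : NormedSpace ℝ X),
    HasAngle X (-γ) ∧ (∀ δ, γ < δ → ¬ HasAngle X (-δ)) ∧ ∀ α, 1 < α → ¬ HasAngle X α := by
  obtain ⟨l, hl⟩ : ∃ l : ℝ, l * (γ + 1) = γ - 1 := ⟨(γ - 1) / (γ + 1), by field_simp⟩
  have l0 : 0 < l := by nlinarith
  have l1 : l < 1 := by nlinarith
  have hex : ∀ v, ∃ t ∈ Set.Icc l 1, ∀ t' ∈ Set.Icc l 1, Q l t v ≤ Q l t' v := by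
    intro v
    refine isCompact_Icc.exists_isMinOn ⟨l, le_rfl, l1.le⟩ (f := fun t => Q l t v) ?_
    refine (continuousOn_const.div continuousOn_id ?_).add
      (continuousOn_const.div (by fun_prop) ?_)
    · intro t ht; exact (l0.trans_le ht.1).ne'
    · intro t ht; have := ht.2; exact (by linarith : 0 < 1 + l - t).ne'
  choose τ hτ hmin using hex
  have Qlow : ∀ t ∈ Set.Icc l 1, ∀ v : ℝ × ℝ, v.1 ^ 2 + v.2 ^ 2 ≤ Q l t v := by
    rintro t ⟨h1, h2⟩ v
    exact add_le_add (le_div_self (sq_nonneg _) (by linarith) h2)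
      (le_div_self (sq_nonneg _) (by linarith) (by linarith))
  have Qup : ∀ t ∈ Set.Icc l 1, ∀ v : ℝ × ℝ, l * Q l t v ≤ v.1 ^ 2 + v.2 ^ 2 := by
    rintro t ⟨h1, h2⟩ v
    rw [Q, mul_add, ← mul_div_assoc, ← mul_div_assoc]
    apply add_le_add <;> rw [div_le_iff₀ (by linarith)] <;> nlinarith [sq_nonneg v.1, sq_nonneg v.2]
  have Q0 : ∀ v, 0 ≤ Q l (τ v) v := fun v => le_trans (by positivity) (Qlow _ (hτ v) v)
  let N : ℝ × ℝ → ℝ := fun v => √(Q l (τ v) v)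
  have N2 : ∀ v, N v ^ 2 = Q l (τ v) v := fun v => Real.sq_sqrt (Q0 v)
  have N0 : ∀ v, 0 ≤ N v := fun v => Real.sqrt_nonneg _
  have Qs : ∀ t (c : ℝ) v, Q l t (c • v) = c ^ 2 * Q l t v := fun t c v => by
    simp only [Q, Prod.smul_fst, Prod.smul_snd, smul_eq_mul]; ring
  have Nval : ∀ v t, t ∈ Set.Icc l 1 → (∀ t' ∈ Set.Icc l 1, Q l t v ≤ Q l t' v) →
      N v ^ 2 = Q l t v := fun v t ht h => by
    rw [N2]; exact le_antisymm (hmin v t ht) (h _ (hτ v))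
  have Ns : ∀ (c : ℝ) x, N (c • x) = |c| * N x := by
    intro c x
    apply (sq_eq_sq₀ (N0 _) (mul_nonneg (abs_nonneg _) (N0 _))).1
    rw [Nval (c • x) (τ x) (hτ x) (fun t' ht' => by
      rw [Qs, Qs]; exact mul_le_mul_of_nonneg_left (hmin x t' ht') (sq_nonneg _)), Qs,
      mul_pow, sq_abs, N2]
  have Nz : ∀ x, N x = 0 → x = 0 := by
    intro x hx
    have := Qlow _ (hτ x) x
    rw [← N2, hx] at this
    ext <;> simp <;> nlinarith [sq_nonneg x.1, sq_nonneg x.2]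
  have Nt : ∀ x y, N (x + y) ≤ N x + N y := by
    intro x y
    rcases (N0 x).eq_or_lt with hp | hp
    · rw [Nz x hp.symm, zero_add]; linarith [N0 0]
    rcases (N0 y).eq_or_lt with hq | hq
    · rw [Nz y hq.symm, add_zero]; linarith [N0 0]
    refine abs_le_abs_sq_aux _ _ (by positivity) ?_
    obtain ⟨a1, a2⟩ := hτ x
    obtain ⟨b1, b2⟩ := hτ y
    have hx := N2 x
    have hy := N2 y
    set p := N x
    set q := N y
    have hmem : (p * τ x + q * τ y) / (p + q) ∈ Set.Icc l 1 := by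
      constructor
      · rw [le_div_iff₀ (by positivity)]; nlinarith
      · rw [div_le_iff₀ (by positivity)]; nlinarith
    rw [N2]
    refine (hmin _ _ hmem).trans ?_
    have c1 : 0 < τ x := by linarith
    have c2 : 0 < τ y := by linarith
    have c3 : 0 < 1 + l - τ x := by linarith
    have c4 : 0 < 1 + l - τ y := by linarith
    have t1 := titu x.1 y.1 (p * τ x) (q * τ y) (by positivity) (by positivity)
    have t2 := titu x.2 y.2 (p * (1 + l - τ x)) (q * (1 + l - τ y)) (by positivity) (by positivity)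
    have e1 : Q l ((p * τ x + q * τ y) / (p + q)) (x + y) = (p + q) *
        ((x.1 + y.1) ^ 2 / (p * τ x + q * τ y) +
          (x.2 + y.2) ^ 2 / (p * (1 + l - τ x) + q * (1 + l - τ y))) := by
      have : 1 + l - (p * τ x + q * τ y) / (p + q) =
          (p * (1 + l - τ x) + q * (1 + l - τ y)) / (p + q) := by field_simp; ring
      simp only [Q, this, Prod.fst_add, Prod.snd_add]
      field_simp
    have e2 : x.1 ^ 2 / (p * τ x) + x.2 ^ 2 / (p * (1 + l - τ x)) = p := by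
      have : x.1 ^ 2 / (p * τ x) + x.2 ^ 2 / (p * (1 + l - τ x)) = Q l (τ x) x / p := by
        simp only [Q]; field_simp
      rw [this, ← hx]; field_simp
    have e3 : y.1 ^ 2 / (q * τ y) + y.2 ^ 2 / (q * (1 + l - τ y)) = q := by
      have : y.1 ^ 2 / (q * τ y) + y.2 ^ 2 / (q * (1 + l - τ y)) = Q l (τ y) y / q := by
        simp only [Q]; field_simp
      rw [this, ← hy]; field_simp
    rw [e1, sq (p + q)]
    exact mul_le_mul_of_nonneg_left (by linarith) (by positivity)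
  have V1 : ∀ a b : ℝ, b ^ 2 ≤ l ^ 2 * a ^ 2 → N (a, b) ^ 2 = a ^ 2 + b ^ 2 / l := by
    intro a b h
    rw [Nval _ 1 ⟨l1.le, le_rfl⟩]
    · simp [Q]
    · rintro t ⟨h1, h2⟩
      have c1 : 0 < t := by linarith
      have c3 : 0 < 1 + l - t := by linarith
      simp only [Q, div_one, add_sub_cancel_left]
      rw [← sub_nonneg]
      have : a ^ 2 / t + b ^ 2 / (1 + l - t) - (a ^ 2 + b ^ 2 / l) =
          (1 - t) * (a ^ 2 * (l * (1 + l - t)) - b ^ 2 * t) / (t * l * (1 + l - t)) := by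
        field_simp; ring
      rw [this]
      apply div_nonneg (mul_nonneg (by linarith) _) (by positivity)
      nlinarith [mul_nonneg (mul_nonneg (sq_nonneg a) l0.le) (sub_nonneg.2 h2),
        mul_nonneg (sq_nonneg b) (sub_nonneg.2 h2)]
  have V2 : ∀ b : ℝ, N (0, b) ^ 2 = b ^ 2 := by
    intro b
    rw [Nval _ l ⟨le_rfl, l1.le⟩]
    · simp [Q]
    · intro t ht
      simpa [Q] using Qlow t ht (0, b)
  have V3 : ∀ a b e : ℝ, |e| ≤ (1 - l) / (1 + l) → a ^ 2 = (1 + e) ^ 2 → b ^ 2 = (1 - e) ^ 2 →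
      N (a, b) ^ 2 = 4 / (1 + l) := by
    intro a b e he ha hb
    rw [abs_le, neg_le, le_div_iff₀ (by linarith), le_div_iff₀ (by linarith)] at he
    have c1 : 0 < 1 + e := by nlinarith
    have c2 : 0 < 1 - e := by nlinarith
    have e1 : Q l ((1 + l) * (1 + e) / 2) (a, b) = 4 / (1 + l) := by
      have : 1 + l - (1 + l) * (1 + e) / 2 = (1 + l) * (1 - e) / 2 := by ring
      simp only [Q, this, ha, hb]; field_simp; ring
    rw [Nval _ ((1 + l) * (1 + e) / 2) ⟨by nlinarith, by nlinarith⟩, e1]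
    rintro t ⟨h1, h2⟩
    have := titu (1 + e) (1 - e) t (1 + l - t) (by linarith) (by linarith)
    rw [e1]
    simp only [Q, ha, hb]
    refine le_trans (le_of_eq ?_) this
    congr 1 <;> ring
  obtain ⟨X, i1, i2, hX⟩ := realize N N0 Ns Nt Nz
  refine ⟨X, i1, i2, (hX _).2 ?_, fun δ hδ h => ?_, fun α hα h => ?_⟩
  · have key : ∀ x y, N x = 1 → N y = 1 → 4 * l ≤ l * N (x + y) ^ 2 + N (x - y) ^ 2 := by
      intro x y hx hy
      have h1 := hmin x _ (hτ (x + y))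
      have h2 := hmin y _ (hτ (x + y))
      rw [← N2, hx] at h1
      rw [← N2, hy] at h2
      have h3 : 2 * Q l (τ (x + y)) x + 2 * Q l (τ (x + y)) y =
          Q l (τ (x + y)) (x + y) + Q l (τ (x + y)) (x - y) := by
        simp only [Q, Prod.fst_add, Prod.snd_add, Prod.fst_sub, Prod.snd_sub]; ring
      have h4 := (Qup _ (hτ (x + y)) (x - y)).trans (Qlow _ (hτ (x - y)) (x - y))
      rw [N2, N2]
      nlinarith
    intro x y hx hy
    have k1 := key x y hx hy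
    have k2 := key x (-y) hx (by rw [← neg_one_smul ℝ y, Ns, hy]; simp)
    rw [← sub_eq_add_neg, sub_neg_eq_add] at k2
    set S := N (x + y) ^ 2
    set D := N (x - y) ^ 2
    have S0 : 0 ≤ S := sq_nonneg _
    have D0 : 0 ≤ D := sq_nonneg _
    have hpos : 0 < (S + D) / 4 := by nlinarith
    have hb := one_add_mul_self_le_rpow_one_add (s := (S + D) / 4 - 1) (by linarith) hγ.le
    rw [add_sub_cancel] at hb
    rw [Real.rpow_neg hpos.le, ← div_eq_mul_inv, div_le_one (by positivity)]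
    refine le_trans ?_ hb
    have k3 : 4 * (γ - 1) ≤ (γ - 1) * S + (γ + 1) * D := by rw [← hl]; nlinarith
    have k4 : 4 * (γ - 1) ≤ (γ - 1) * D + (γ + 1) * S := by rw [← hl]; nlinarith
    rw [abs_le]; constructor <;> linarith
  · rw [hX] at h
    have m1 : 1 < 1 / l := one_lt_one_div l0 l1
    have m2 : 1 / l * (γ - 1) = γ + 1 := by rw [← hl]; field_simp
    obtain ⟨e, e0, e1, e2, e3⟩ := small (1 / l + 1) (δ * (1 / l - 1)) (l / 2) (by positivity)
      (by nlinarith) (by positivity)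
    have e4 : e ^ 2 ≤ l ^ 2 / 4 := by nlinarith
    have e5 : e ^ 2 / l ≤ 1 / 4 := by rw [div_le_iff₀ l0]; nlinarith
    obtain ⟨u, hu⟩ : ∃ u : ℝ, u ^ 2 = 1 - e ^ 2 / l := ⟨√_, Real.sq_sqrt (by linarith)⟩
    have hx : N (u, e) = 1 := by
      apply (sq_eq_sq₀ (N0 _) zero_le_one).1
      rw [V1 _ _ (by rw [hu]; nlinarith), hu]; ring
    have hy : N (u, -e) = 1 := by
      apply (sq_eq_sq₀ (N0 _) zero_le_one).1
      rw [V1 _ _ (by rw [hu]; nlinarith), hu]; ring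
    have := h _ _ hx hy
    simp only [Prod.mk_add_mk, Prod.mk_sub_mk, add_neg_cancel, sub_self] at this
    rw [V2, V1 _ _ (by nlinarith [sq_nonneg (l * (u + u))])] at this
    have f1 : ((u + u) ^ 2 + 0 ^ 2 / l - (e - -e) ^ 2) / 4 = 1 - (1 / l + 1) * e ^ 2 := by
      linear_combination hu
    have f2 : ((u + u) ^ 2 + 0 ^ 2 / l + (e - -e) ^ 2) / 4 = 1 - (1 / l - 1) * e ^ 2 := by
      linear_combination hu
    rw [f1, f2, abs_of_pos (by linarith)] at this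
    set s := (1 / l - 1) * e ^ 2 with hs
    have s0 : 0 ≤ s := mul_nonneg (by linarith) (sq_nonneg _)
    have s1 : s < 1 := by nlinarith [sq_nonneg e]
    have hb := one_add_mul_self_le_rpow_one_add (s := s) (by linarith) (p := δ) (by linarith)
    have hb2 : (1 + s) ^ δ ≤ (1 - s) ^ (-δ) := by
      rw [Real.rpow_neg (by linarith), ← Real.inv_rpow (by linarith)]
      apply Real.rpow_le_rpow (by linarith) _ (by linarith)
      rw [← one_div, le_div_iff₀ (by linarith)]; nlinarith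
    have := mul_le_mul_of_nonneg_left (hb.trans hb2) (sub_pos.2 e2).le
    rw [mul_assoc, ← hs] at e3
    linarith
  · rw [hX] at h
    have m1 : 0 < (1 - l) / (1 + l) := div_pos (by linarith) (by linarith)
    obtain ⟨e, e0, e1, e2, e3⟩ := small 1 α _ one_pos hα m1
    obtain ⟨c, c0, hc⟩ : ∃ c : ℝ, 0 < c ∧ c ^ 2 = (1 + l) / 4 :=
      ⟨√_, Real.sqrt_pos.2 (by linarith), Real.sq_sqrt (by linarith)⟩
    have hs : ∀ (k : ℝ) v, N v ^ 2 = 4 / (1 + l) → N ((k * c) • v) ^ 2 = k ^ 2 := by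
      intro k v hv
      rw [Ns, mul_pow, hv, sq_abs, mul_pow, hc]; field_simp
    have hx : N ((1 * c) • (1 + e, 1 - e)) = 1 := by
      apply (sq_eq_sq₀ (N0 _) zero_le_one).1
      exact hs _ _ (V3 _ _ e (by rwa [abs_of_pos e0]) rfl rfl)
    have hy : N ((1 * c) • (1 - e, 1 + e)) = 1 := by
      apply (sq_eq_sq₀ (N0 _) zero_le_one).1
      exact hs _ _ (V3 _ _ (-e) (by rwa [abs_neg, abs_of_pos e0]) (by ring) (by ring))
    have := h _ _ hx hy
    have f1 : (1 * c) • ((1 + e, 1 - e) : ℝ × ℝ) + (1 * c) • (1 - e, 1 + e) =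
        (2 * c) • (1, 1) := by ext <;> simp <;> ring
    have f2 : (1 * c) • ((1 + e, 1 - e) : ℝ × ℝ) - (1 * c) • (1 - e, 1 + e) =
        (2 * e * c) • (1, -1) := by ext <;> simp <;> ring
    rw [f1, f2, hs _ _ (V3 _ _ 0 (by simpa using m1.le) (by ring) (by ring)),
      hs _ _ (V3 _ _ 0 (by simpa using m1.le) (by ring) (by ring)),
      show ((2 : ℝ) ^ 2 - (2 * e) ^ 2) / 4 = 1 - 1 * e ^ 2 by ring,
      show ((2 : ℝ) ^ 2 + (2 * e) ^ 2) / 4 = 1 + e ^ 2 by ring, abs_of_pos (by linarith)] at this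
    have hb := one_add_mul_self_le_rpow_one_add (s := e ^ 2) (by nlinarith) hα.le
    have := mul_le_mul_of_nonneg_left hb (sub_pos.2 e2).le
    linarith

lemma tri (l : ℝ) (hl : 0 ≤ l) (a b c d : ℝ) :
    √((a + c) ^ 2 + l * (b + d) ^ 2) ≤ √(a ^ 2 + l * b ^ 2) + √(c ^ 2 + l * d ^ 2) := by
  rw [Real.sqrt_le_left (by positivity), add_sq (√_), Real.sq_sqrt (by positivity),
    Real.sq_sqrt (by positivity), mul_assoc, ← Real.sqrt_mul (by positivity)]
  have : a * c + l * (b * d) ≤ √((a ^ 2 + l * b ^ 2) * (c ^ 2 + l * d ^ 2)) :=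
    Real.le_sqrt_of_sq_le (by nlinarith [mul_nonneg hl (sq_nonneg (a * d - b * c))])
  nlinarith

lemma lemB (α : ℝ) (hα : 1 < α) : ∃ (X : Type) (_ : NormedAddCommGroup X) (_ : NormedSpace ℝ X),
    HasAngle X α ∧ ∀ β, α < β → ¬ HasAngle X β := by
  obtain ⟨l, hl⟩ : ∃ l : ℝ, l * (α + 1) = α - 1 := ⟨(α - 1) / (α + 1), by field_simp⟩
  have l0 : 0 < l := by nlinarith
  have l1 : l < 1 := by nlinarith
  let N : ℝ × ℝ → ℝ := fun v => √(max (v.1 ^ 2 + l * v.2 ^ 2) (v.2 ^ 2 + l * v.1 ^ 2))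
  have N0 : ∀ v, 0 ≤ N v := fun v => Real.sqrt_nonneg _
  have N2 : ∀ v, N v ^ 2 = max (v.1 ^ 2 + l * v.2 ^ 2) (v.2 ^ 2 + l * v.1 ^ 2) := fun v =>
    Real.sq_sqrt (le_max_of_le_left (by positivity))
  have Ns : ∀ (c : ℝ) x, N (c • x) = |c| * N x := by
    intro c x
    apply (sq_eq_sq₀ (N0 _) (mul_nonneg (abs_nonneg _) (N0 _))).1
    rw [mul_pow, N2, N2, sq_abs, mul_max_of_nonneg _ _ (sq_nonneg c)]
    simp only [Prod.smul_fst, Prod.smul_snd, smul_eq_mul]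
    congr 1 <;> ring
  have Nz : ∀ x, N x = 0 → x = 0 := by
    intro x hx
    have h1 := le_max_left (x.1 ^ 2 + l * x.2 ^ 2) (x.2 ^ 2 + l * x.1 ^ 2)
    have h2 := le_max_right (x.1 ^ 2 + l * x.2 ^ 2) (x.2 ^ 2 + l * x.1 ^ 2)
    rw [← N2, hx] at h1 h2
    ext <;> simp <;> nlinarith [mul_nonneg l0.le (sq_nonneg x.1), mul_nonneg l0.le (sq_nonneg x.2)]
  have Nt : ∀ x y, N (x + y) ≤ N x + N y := by
    intro x y
    simp only [N, Real.sqrt_monotone.map_max, Prod.fst_add, Prod.snd_add]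
    exact max_le ((tri l l0.le _ _ _ _).trans (add_le_add (le_max_left _ _) (le_max_left _ _)))
      ((tri l l0.le _ _ _ _).trans (add_le_add (le_max_right _ _) (le_max_right _ _)))
  obtain ⟨X, i1, i2, hX⟩ := realize N N0 Ns Nt Nz
  refine ⟨X, i1, i2, (hX _).2 ?_, fun β hβ h => ?_⟩
  · have key : ∀ x y, N x = 1 → N y = 1 → N (x + y) ^ 2 + l * N (x - y) ^ 2 ≤ 4 := by
      intro x y hx hy
      have a1 := le_max_left (x.1 ^ 2 + l * x.2 ^ 2) (x.2 ^ 2 + l * x.1 ^ 2)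
      have a2 := le_max_right (x.1 ^ 2 + l * x.2 ^ 2) (x.2 ^ 2 + l * x.1 ^ 2)
      have b1 := le_max_left (y.1 ^ 2 + l * y.2 ^ 2) (y.2 ^ 2 + l * y.1 ^ 2)
      have b2 := le_max_right (y.1 ^ 2 + l * y.2 ^ 2) (y.2 ^ 2 + l * y.1 ^ 2)
      rw [← N2, hx] at a1 a2
      rw [← N2, hy] at b1 b2
      rw [N2, N2]
      simp only [Prod.fst_add, Prod.snd_add, Prod.fst_sub, Prod.snd_sub]
      have p1 := mul_nonneg (sub_pos.2 l1).le (sq_nonneg (x.1 - y.1))
      have p2 := mul_nonneg (sub_pos.2 l1).le (sq_nonneg (x.2 - y.2))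
      have p3 := mul_nonneg l0.le p1
      have p4 := mul_nonneg l0.le p2
      rcases max_choice ((x.1 + y.1) ^ 2 + l * (x.2 + y.2) ^ 2)
        ((x.2 + y.2) ^ 2 + l * (x.1 + y.1) ^ 2) with h1 | h1 <;>
      rcases max_choice ((x.1 - y.1) ^ 2 + l * (x.2 - y.2) ^ 2)
        ((x.2 - y.2) ^ 2 + l * (x.1 - y.1) ^ 2) with h2 | h2 <;> rw [h1, h2] <;> linarith
    have fin : ∀ S D : ℝ, 0 ≤ D → D ≤ S → S + l * D ≤ 4 →
        (S - D) / 4 * ((S + D) / 4) ^ α ≤ 1 := by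
      intro S D h1 h2 h3
      have a1 : (S - D) / 4 ≤ Real.exp (-((1 + l) * D / 4)) :=
        le_trans (by linarith) (Real.add_one_le_exp _)
      have a2 : (S + D) / 4 ≤ Real.exp ((1 - l) * D / 4) :=
        le_trans (by linarith) (Real.add_one_le_exp _)
      have a3 := Real.rpow_le_rpow (by linarith) a2 (by linarith : 0 ≤ α)
      rw [← Real.exp_mul] at a3
      refine (mul_le_mul a1 a3 (Real.rpow_nonneg (by linarith) _) (Real.exp_nonneg _)).trans ?_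
      rw [← Real.exp_add, Real.exp_le_one_iff]
      apply le_of_eq
      linear_combination (-D / 4) * hl
    intro x y hx hy
    have k1 := key x y hx hy
    have k2 := key x (-y) hx (by rw [← neg_one_smul ℝ y, Ns, hy]; simp)
    rw [← sub_eq_add_neg, sub_neg_eq_add] at k2
    rcases le_total (N (x - y) ^ 2) (N (x + y) ^ 2) with h | h
    · rw [abs_of_nonneg (by linarith)]
      exact fin _ _ (sq_nonneg _) h k1
    · rw [abs_of_nonpos (by linarith), add_comm (N (x + y) ^ 2), ← neg_div, neg_sub]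
      exact fin _ _ (sq_nonneg _) h k2
  · rw [hX] at h
    obtain ⟨e, e0, e1, e2, e3⟩ := small (1 + l) (β * (1 - l)) 1 (by positivity)
      (by nlinarith) one_pos
    obtain ⟨u, hu⟩ : ∃ u : ℝ, u ^ 2 = 1 - l * e ^ 2 :=
      ⟨√_, Real.sq_sqrt (by nlinarith [sq_nonneg e])⟩
    have hx : ∀ f : ℝ, f ^ 2 = e ^ 2 → N (u, f) = 1 := by
      intro f hf
      apply (sq_eq_sq₀ (N0 _) zero_le_one).1
      rw [N2]
      simp only [hu, hf]
      rw [max_eq_left (by nlinarith)]; ring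
    have := h _ _ (hx e rfl) (hx (-e) (by ring))
    simp only [Prod.mk_add_mk, Prod.mk_sub_mk, add_neg_cancel, sub_self, N2] at this
    rw [max_eq_left (by nlinarith [sq_nonneg (u + u)]),
      max_eq_right (by nlinarith [sq_nonneg (e - -e)])] at this
    have f1 : ((u + u) ^ 2 + l * 0 ^ 2 - ((e - -e) ^ 2 + l * 0 ^ 2)) / 4 = 1 - (1 + l) * e ^ 2 := by
      linear_combination hu
    have f2 : ((u + u) ^ 2 + l * 0 ^ 2 + ((e - -e) ^ 2 + l * 0 ^ 2)) / 4 = 1 + (1 - l) * e ^ 2 := by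
      linear_combination hu
    rw [f1, f2, abs_of_pos (by linarith)] at this
    have hb := one_add_mul_self_le_rpow_one_add (s := (1 - l) * e ^ 2)
      (by nlinarith [sq_nonneg e]) (p := β) (by linarith)
    have := mul_le_mul_of_nonneg_left hb (sub_pos.2 e2).le
    rw [mul_assoc] at e3
    linarith

theorem result (α β γ δ : ℝ) (hγ : 1 < γ) (hδ : γ < δ) (hα : 1 < α) (hβ : α < β) :
    List.Pairwise Differ [NORMr (-δ), NORMr (-γ), NORM, NORMr α, NORMr β] := by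
  obtain ⟨X, i1, i2, x1, x2, x3⟩ := lemA γ hγ
  obtain ⟨Y, j1, j2, y1, -, y3⟩ := lemA δ (hγ.trans hδ)
  obtain ⟨Z, k1, k2, -, z2, -⟩ := lemA ((1 + γ) / 2) (by linarith)
  obtain ⟨W, l1, l2, w1, w2⟩ := lemB α hα
  simp only [List.pairwise_cons, List.mem_cons, List.not_mem_nil, or_false, forall_eq_or_imp,
    forall_eq, List.Pairwise.nil, and_true, false_implies, implies_true]
  refine ⟨⟨⟨X, i1, i2, fun h => x2 δ hδ (h.2 x1)⟩, ⟨X, i1, i2, fun h => x2 δ hδ (h.2 trivial)⟩,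
    ⟨Y, j1, j2, fun h => y3 α hα (h.1 y1)⟩, ⟨Y, j1, j2, fun h => y3 β (hα.trans hβ) (h.1 y1)⟩⟩,
    ⟨⟨Z, k1, k2, fun h => z2 γ (by linarith) (h.2 trivial)⟩,
    ⟨X, i1, i2, fun h => x3 α hα (h.1 x1)⟩, ⟨X, i1, i2, fun h => x3 β (hα.trans hβ) (h.1 x1)⟩⟩,
    ⟨⟨X, i1, i2, fun h => x3 α hα (h.1 trivial)⟩,
    ⟨X, i1, i2, fun h => x3 β (hα.trans hβ) (h.1 trivial)⟩⟩,
    ⟨W, l1, l2, fun h => w2 β hβ (h.1 w1)⟩⟩

end Pool.Agent.Results.MP_843c3c_an.Distinct
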